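import Pool.Agent.H55.QE.Targets
import Pool.Agent.H51.QR.PSL3

/-! ABS3: index vectors as formulas, tables as points, one psd block, losses of clauses. -/

set_option autoImplicit false

namespace Pool.Agent.H41.QE

open Matrix Finset H43.PS Pool.Agent.H55.QE
open Pool.Agent.H51.QR (av_eval av_prod av_share)

theorem XX_mono2 (Q q p σ r r' κ₀ W W' : ℝ) (N h : ℕ) (hQ : 0 ≤ Q) (hq : 0 ≤ q) (hp : 1 < p)
    (hσ : 0 ≤ σ) (hr : 0 ≤ r) (hrr : r ≤ r') (hκ : 0 ≤ κ₀) (hW : 0 ≤ W) (hWW : W ≤ W') :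
    XX Q q p σ r κ₀ W N h ≤ XX Q q p σ r' κ₀ W' N h := by
  have hp1 : 0 < p - 1 := by linarith
  have hK : 0 ≤ KK Q q p σ := by
    unfold KK
    have : 0 ≤ Q / ((p - 1) * q) := div_nonneg hQ (mul_nonneg hp1.le hq)
    positivity
  have hK2 : 0 ≤ KK Q q p σ ^ N * W := mul_nonneg (pow_nonneg hK _) hW
  have hKW : KK Q q p σ ^ N * W ≤ KK Q q p σ ^ N * W' :=
    mul_le_mul_of_nonneg_left hWW (pow_nonneg hK _)
  have h1p : 0 ≤ 1 - 1 / p := by
    have : 1 / p ≤ 1 := by rw [div_le_one (by linarith)]; linarith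
    linarith
  unfold XX
  apply mul_le_mul_of_nonneg_left _ (by positivity)
  have e1 : (r * (Q + 1) ^ N) ^ (1 - 1 / p) ≤ (r' * (Q + 1) ^ N) ^ (1 - 1 / p) := by
    apply Real.rpow_le_rpow (by positivity) _ h1p
    exact mul_le_mul_of_nonneg_right hrr (by positivity)
  have e2 : (KK Q q p σ ^ N * W) ^ (1 / p) ≤ (KK Q q p σ ^ N * W') ^ (1 / p) :=
    Real.rpow_le_rpow hK2 hKW (by positivity)
  have hr' : 0 ≤ r' := hr.trans hrr
  exact mul_le_mul e1 e2 (Real.rpow_nonneg hK2 _) (by positivity)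

theorem av_sumc {X C : Type} [Fintype X] [Fintype C] (f : C → X → ℝ) :
    av (fun x => ∑ c, f c x) = ∑ c, av (f c) := by
  unfold av
  rw [Finset.sum_comm, Finset.mul_sum]

theorem av_neg {X : Type} [Fintype X] (f : X → ℝ) : av (fun x => - f x) = - av f := by
  unfold av
  rw [Finset.sum_neg_distrib]
  ring

/-- rank one factorisations -/
theorem sdp1 (hSDP : T_SDP) (hTRP : T_TRP) {Θ : Type} [Fintype Θ] [DecidableEq Θ] (p σ : ℝ)
    (hp1 : 1 < p) (hp2 : p < 3 / 2) (hσ : 1 ≤ σ) (hΘ : 0 < Fintype.card Θ) (N q h : ℕ) (hq : 0 < q)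
    (D : (Fin N → Θ) → ℝ) (M κ₀ R τ : ℝ) (hM : 0 ≤ M) (hDM : ∀ z, |D z| ≤ M) (hPD : PosDeg h D)
    (hκ : 1 ≤ κ₀) (hR : 1 ≤ R) (hτ : 0 < τ)
    (g : (Fin N → Fin q → Θ) → ℝ) (s : (Fin N → Fin q) → ℝ) (hg : ∀ t, 0 ≤ g t ∧ g t ≤ 1)
    (hs : ∀ b, 0 ≤ s b ∧ s b ≤ 1) :
    - (M * (τ * av (fun ab : (Fin N → Fin q → Θ) × (Fin N → Fin q) => g ab.1 * s ab.2) +
        (XX (Fintype.card Θ) q p σ R κ₀ (R ^ p) N h / τ +
          XX (Fintype.card Θ) q p σ R κ₀ (R ^ p) N h))) ≤
      av (fun ab : (Fin N → Fin q → Θ) × (Fin N → Fin q) =>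
        D (fun i => ab.1 i (ab.2 i)) * (g ab.1 * s ab.2)) := by
  have hΘn : Nonempty Θ := Fintype.card_pos_iff.mp hΘ
  have hT : 0 < Fintype.card (Fin N → Fin q → Θ) := Fintype.card_pos
  let P : (Fin N → Fin q → Θ) → Matrix Unit Unit ℝ := fun t => diagonal (fun _ => g t)
  let S : (Fin N → Fin q) → Matrix Unit Unit ℝ := fun b => diagonal (fun _ => s b)
  have hP : ∀ t, (P t).PosSemidef := fun t => PosSemidef.diagonal (fun _ => (hg t).1)
  have hS : ∀ b, (S b).PosSemidef := fun b => PosSemidef.diagonal (fun _ => (hs b).1)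
  have htP : ∀ t, (P t).trace = g t := fun t => by simp [P, Matrix.trace]
  have htS : ∀ b, (S b).trace ≤ κ₀ := fun b => by
    have : (S b).trace = s b := by simp [S, Matrix.trace]
    rw [this]
    exact (hs b).2.trans hκ
  have htr : ∀ t b, (P t * S b).trace = g t * s b := fun t b => by
    simp [P, S, Matrix.trace, Matrix.diagonal_mul_diagonal]
  have h1 := hSDP Θ p σ hp1 hp2 hσ hΘ N q h hq Unit P S D M κ₀ hP hS htS hDM hPD
  simp only [htr] at h1
  have htp : av (fun a => tp p (P a)) ≤ R ^ p := by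
    rw [← H76.PS.av_const hT (R ^ p)]
    refine H76.PS.av_mono _ _ fun a => ?_
    refine ((hTRP Unit p (P a) hp1 (hP a)).2).trans ?_
    rw [htP]
    exact Real.rpow_le_rpow (hg a).1 ((hg a).2.trans hR) (by linarith)
  have htp0 : 0 ≤ av (fun a => tp p (P a)) :=
    H76.PS.av_nn _ fun a => H76.PS.tp_nn p _ (hP a)
  have hσ0 : (0 : ℝ) ≤ σ := by linarith
  have hX0 : 0 ≤ XX (Fintype.card Θ) q p σ (Fintype.card Unit) κ₀ (av (fun a => tp p (P a))) N h :=
    (H76.PS.XX_mono _ _ _ _ _ _ _ _ N h (by positivity) (by positivity) hp1 hσ0 (by positivity)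
      (by linarith) htp0 le_rfl).1
  have hX1 : XX (Fintype.card Θ) q p σ (Fintype.card Unit) κ₀ (av (fun a => tp p (P a))) N h ≤
      XX (Fintype.card Θ) q p σ R κ₀ (R ^ p) N h :=
    XX_mono2 _ _ _ _ _ _ _ _ _ N h (by positivity) (by positivity) hp1 hσ0 (by positivity)
      (by simpa using hR) (by linarith) htp0 htp
  set X0 := XX (Fintype.card Θ) q p σ (Fintype.card Unit) κ₀ (av (fun a => tp p (P a))) N h
  set X := XX (Fintype.card Θ) q p σ R κ₀ (R ^ p) N h
  have hY : 0 ≤ av (fun ab : (Fin N → Fin q → Θ) × (Fin N → Fin q) => g ab.1 * s ab.2) :=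
    H76.PS.av_nn _ fun ab => mul_nonneg (hg _).1 (hs _).1
  refine le_trans ?_ h1
  apply neg_le_neg
  apply mul_le_mul_of_nonneg_left _ hM
  have h2 := H76.PS.two_sqrt_le _ X0 τ hY hX0 hτ
  have h3 : X0 / τ ≤ X / τ := div_le_div_of_nonneg_right hX1 hτ.le
  linarith

theorem fin3 (δ μ M m c X η Y Ls : ℝ) (hδ : 0 < δ) (hc : 0 ≤ c) (hm : m = c + 1) (hM : 1 ≤ M)
    (hδm : δ ≤ 2 * m) (hX : 0 ≤ X) (hμ : 0 ≤ μ) (hη : 4 * M * η ≤ δ) (hY : Y ≤ c * μ)
    (h1 : -(M * (δ / (8 * M * m) * Y + (X / (δ / (8 * M * m)) + X))) ≤ Ls - δ * μ + M * η * μ)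
    (h2 : Ls ≤ c * (M * (δ / (8 * M * m) * μ + 3 * (X / (δ / (8 * M * m)) + X)))) :
    δ ^ 2 * μ ≤ 96 * M ^ 2 * m ^ 2 * X := by
  have hM0 : 0 < M := by linarith
  have hm1 : 1 ≤ m := by linarith
  have hm0 : 0 < m := by linarith
  obtain ⟨τ, hτ⟩ : ∃ τ : ℝ, τ = δ / (8 * M * m) := ⟨_, rfl⟩
  rw [← hτ] at h1 h2
  have hτ0 : 0 < τ := by rw [hτ]; positivity
  have hτ1 : τ ≤ 1 := by
    rw [hτ, div_le_one (by positivity)]
    nlinarith
  have hXτ : X ≤ X / τ := by
    rw [le_div_iff₀ hτ0]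
    nlinarith
  have e1 : M * (τ * Y) ≤ δ * μ / 8 := by
    have a1 : τ * Y ≤ τ * (m * μ) := by
      apply mul_le_mul_of_nonneg_left _ hτ0.le
      nlinarith
    have a2 : M * (τ * (m * μ)) = δ * μ / 8 := by
      rw [hτ]; field_simp
    calc M * (τ * Y) ≤ M * (τ * (m * μ)) := mul_le_mul_of_nonneg_left a1 hM0.le
      _ = _ := a2
  have e2 : c * (M * (τ * μ)) ≤ δ * μ / 8 := by
    have a2 : m * (M * (τ * μ)) = δ * μ / 8 := by
      rw [hτ]; field_simp
    rw [← a2]
    apply mul_le_mul_of_nonneg_right (by linarith) (by positivity)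
  have e3 : M * η * μ ≤ δ * μ / 4 := by
    have : M * η ≤ δ / 4 := by linarith
    calc M * η * μ ≤ δ / 4 * μ := mul_le_mul_of_nonneg_right this hμ
      _ = _ := by ring
  have e4 : δ * μ / 2 ≤ M * (3 * c + 1) * (X / τ + X) := by
    have : c * (M * (τ * μ + 3 * (X / τ + X))) =
        c * (M * (τ * μ)) + M * (3 * c) * (X / τ + X) := by ring
    rw [this] at h2
    have h3 : M * (τ * Y + (X / τ + X)) = M * (τ * Y) + M * (X / τ + X) := by ring
    rw [h3] at h1
    have h4 : M * (3 * c + 1) * (X / τ + X) = M * (3 * c) * (X / τ + X) + M * (X / τ + X) := by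
      ring
    rw [h4]
    linarith
  have e5 : M * (3 * c + 1) * (X / τ + X) ≤ M * (3 * m) * (2 * (X / τ)) := by
    apply mul_le_mul
    · apply mul_le_mul_of_nonneg_left (by linarith) hM0.le
    · linarith
    · positivity
    · positivity
  have e6 : M * (3 * m) * (2 * (X / τ)) * δ = 48 * M ^ 2 * m ^ 2 * X := by
    rw [hτ]
    field_simp
    ring
  have e7 : δ * μ / 2 * δ ≤ 48 * M ^ 2 * m ^ 2 * X := by
    rw [← e6]
    exact mul_le_mul_of_nonneg_right (e4.trans e5) hδ.le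
  nlinarith

theorem pf_ABS3 (hSDP : H43.PS.T_SDP) (hNRM : H43.PS.T_NRM) (hTRP : H43.PS.T_TRP) : S_ABS3 := by
  classical
  intro Θ _ _ p σ hp1 hp2 hσ hΘ N q h hq D M hDM hPD hD1 C _ _ V _ sat F hPV hsat ι _ _ A L S ls
    δ η hL hS hls hlsat hδ hη hmain
  have hΘn : Nonempty Θ := Fintype.card_pos_iff.mp hΘ
  have hG : 0 < Fintype.card (Fin N → Θ) := Fintype.card_pos
  have hT : 0 < Fintype.card (Fin N → Fin q → Θ) := Fintype.card_pos
  have hM : 1 ≤ M := by
    rw [← hD1, ← H76.PS.av_const hG M]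
    exact H76.PS.av_mono _ _ fun z => (abs_le.mp (hDM z)).2
  obtain ⟨μ, hμd⟩ : ∃ μ : ℝ, (A.card : ℝ) / (q : ℝ) ^ N = μ := ⟨_, rfl⟩
  obtain ⟨cC, hcC⟩ : ∃ cC : ℝ, cC = Fintype.card C := ⟨_, rfl⟩
  rw [hμd, ← hcC]
  have hcC0 : 0 ≤ cC := by rw [hcC]; positivity
  have hμ : 0 ≤ μ := by rw [← hμd]; positivity
  have hσ0 : (0 : ℝ) ≤ σ := by linarith
  obtain ⟨m, hm⟩ : ∃ m : ℝ, m = cC + 1 := ⟨_, rfl⟩
  have hm0 : 0 < m := by linarith
  rw [← hm]
  obtain ⟨R, hR⟩ : ∃ R : ℝ, R = (Fintype.card ι : ℝ) + 1 := ⟨_, rfl⟩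
  rw [← hR]
  have hcι : (0 : ℝ) ≤ Fintype.card ι := by positivity
  have hR1 : 1 ≤ R := by linarith
  have hRp : 0 ≤ R ^ p := Real.rpow_nonneg (by linarith) _
  obtain ⟨X, hXd⟩ : ∃ X : ℝ, X = XX (Fintype.card Θ) q p σ R (2 * m) (R ^ p) N h := ⟨_, rfl⟩
  have hXn : 0 ≤ X := by
    rw [hXd]
    exact (H76.PS.XX_mono _ _ _ _ _ _ _ _ N h (by positivity) (by positivity) hp1 hσ0
      (by linarith) (by linarith) hRp le_rfl).1
  rw [← hXd]
  rcases A.eq_empty_or_nonempty with hA | hA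
  · have h0 : μ = 0 := by rw [← hμd, hA]; simp
    rw [h0, mul_zero]
    positivity
  have θ₀ : Θ := Classical.choice hΘn
  have hη0 : 0 ≤ η := by
    obtain ⟨b, hb⟩ := hA
    exact (abs_nonneg _).trans (hmain b hb (fun _ _ => θ₀))
  have hηδ : η ≤ δ / 4 := by nlinarith
  have hFs : ∀ b t, ∑ c ∈ F b, ls c t ≤ cC := by
    intro b t
    calc ∑ c ∈ F b, ls c t ≤ ∑ c ∈ F b, (1 : ℝ) :=
          Finset.sum_le_sum fun c _ => (le_abs_self _).trans (hls c t)
      _ = (F b).card := by simp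
      _ ≤ cC := by rw [hcC]; exact_mod_cast Finset.card_le_univ _
  have htru : ∀ b ∈ A, ∀ t, (L b * S t).trace ≤ cC := by
    intro b hb t
    have h1 := (abs_le.mp (hmain b hb t)).1
    have h2 := hFs b t
    linarith
  -- normalisation
  obtain ⟨P', L', hP', hL', hPS, htP, htS⟩ := hNRM ι (Fin N → Fin q → Θ) {b // b ∈ A}
    S (fun b => L b.1) m hm0 hS (fun b => hL b.1 b.2) (by
      intro t b
      rw [Matrix.trace_mul_comm]
      have := htru b.1 b.2 t
      linarith)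
  let L2 : (Fin N → Fin q) → Matrix ι ι ℝ := fun b => if hb : b ∈ A then L' ⟨b, hb⟩ else 0
  have hL2 : ∀ b, (L2 b).PosSemidef := by
    intro b
    by_cases hb : b ∈ A
    · simp only [L2, dif_pos hb]; exact hL' _
    · simp only [L2, dif_neg hb]; exact PosSemidef.zero
  have htL2 : ∀ b, (L2 b).trace ≤ 2 * m := by
    intro b
    by_cases hb : b ∈ A
    · simp only [L2, dif_pos hb]; exact htS _
    · simp only [L2, dif_neg hb, Matrix.trace_zero]; positivity
  have htr : ∀ t b, (P' t * L2 b).trace = if b ∈ A then (L b * S t).trace else 0 := by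
    intro t b
    by_cases hb : b ∈ A
    · simp only [L2, dif_pos hb, if_pos hb]
      rw [hPS t ⟨b, hb⟩, Matrix.trace_mul_comm]
    · simp only [L2, dif_neg hb, if_neg hb, Matrix.mul_zero, Matrix.trace_zero]
  have hnn : ∀ t b, 0 ≤ (P' t * L2 b).trace := fun t b =>
    H76.PS.trace_mul_nn _ _ (hP' t) (hL2 b)
  have hδm : δ ≤ 2 * m := by
    obtain ⟨b, hb⟩ := hA
    have h1 := hnn (fun _ _ => θ₀) b
    rw [htr, if_pos hb] at h1
    have h2 := (abs_le.mp (hmain b hb (fun _ _ => θ₀))).1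
    have h3 := hFs b (fun _ _ => θ₀)
    linarith
  obtain ⟨τ, hτ⟩ : ∃ τ : ℝ, τ = δ / (8 * M * m) := ⟨_, rfl⟩
  have hτ0 : 0 < τ := by rw [hτ]; positivity
  -- the trace part
  have htp : av (fun a => tp p (P' a)) ≤ R ^ p := by
    rw [← H76.PS.av_const hT (R ^ p)]
    refine H76.PS.av_mono _ _ fun a => ?_
    refine ((hTRP ι p (P' a) hp1 (hP' a)).2).trans ?_
    exact Real.rpow_le_rpow (hP' a).trace_nonneg ((htP a).trans (by linarith)) (by linarith)
  have htp0 : 0 ≤ av (fun a => tp p (P' a)) :=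
    H76.PS.av_nn _ fun a => H76.PS.tp_nn p _ (hP' a)
  have hX0 : 0 ≤ XX (Fintype.card Θ) q p σ (Fintype.card ι) (2 * m)
      (av (fun a => tp p (P' a))) N h :=
    (H76.PS.XX_mono _ _ _ _ _ _ _ _ N h (by positivity) (by positivity) hp1 hσ0 (by positivity)
      (by linarith) htp0 le_rfl).1
  have hX1 : XX (Fintype.card Θ) q p σ (Fintype.card ι) (2 * m) (av (fun a => tp p (P' a))) N h ≤
      X := by
    rw [hXd]
    exact XX_mono2 _ _ _ _ _ _ _ _ _ N h (by positivity) (by positivity) hp1 hσ0 (by positivity)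
      (by linarith) (by linarith) htp0 htp
  set X0 := XX (Fintype.card Θ) q p σ (Fintype.card ι) (2 * m) (av (fun a => tp p (P' a))) N h
  have hY : 0 ≤ av (fun ab : (Fin N → Fin q → Θ) × (Fin N → Fin q) =>
      (P' ab.1 * L2 ab.2).trace) := H76.PS.av_nn _ fun ab => hnn _ _
  have key : - (M * (τ * av (fun ab : (Fin N → Fin q → Θ) × (Fin N → Fin q) =>
        (P' ab.1 * L2 ab.2).trace) + (X / τ + X))) ≤
      av (fun ab : (Fin N → Fin q → Θ) × (Fin N → Fin q) =>
        D (fun i => ab.1 i (ab.2 i)) * (P' ab.1 * L2 ab.2).trace) := by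
    have h1 := hSDP Θ p σ hp1 hp2 hσ hΘ N q h hq ι P' L2 D M (2 * m) hP' hL2 htL2 hDM hPD
    refine le_trans ?_ h1
    apply neg_le_neg
    apply mul_le_mul_of_nonneg_left _ (by linarith)
    have h2 := H76.PS.two_sqrt_le _ X0 τ hY hX0 hτ0
    have h3 : X0 / τ ≤ X / τ := div_le_div_of_nonneg_right hX1 hτ0.le
    linarith
  -- averages over the pairs
  have hav1 : ∀ c : ℝ, av (fun ab : (Fin N → Fin q → Θ) × (Fin N → Fin q) =>
      if ab.2 ∈ A then c else 0) = μ * c := by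
    intro c
    rw [av_prod (fun (_ : Fin N → Fin q → Θ) (b : Fin N → Fin q) => if b ∈ A then c else 0),
      ← hμd, ← av_share A c]
    congr 1
    funext b
    exact H76.PS.av_const hT _
  have havD : av (fun ab : (Fin N → Fin q → Θ) × (Fin N → Fin q) =>
      if ab.2 ∈ A then D (fun i => ab.1 i (ab.2 i)) else 0) = μ := by
    rw [av_prod (fun (a : Fin N → Fin q → Θ) (b : Fin N → Fin q) =>
      if b ∈ A then D (fun i => a i (b i)) else 0)]
    have h1 : μ = μ * 1 := by ring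
    rw [h1, ← hμd, ← av_share A 1]
    congr 1
    funext b
    by_cases hb : b ∈ A
    · simp only [if_pos hb]
      rw [av_eval hΘ b D, hD1]
    · simp only [if_neg hb]
      exact H76.PS.av_const hT 0
  have hYY : av (fun ab : (Fin N → Fin q → Θ) × (Fin N → Fin q) =>
        (P' ab.1 * L2 ab.2).trace) ≤ cC * μ := by
    rw [mul_comm cC μ, ← hav1 cC]
    apply H76.PS.av_mono
    intro ab
    rw [htr]
    by_cases hb : ab.2 ∈ A
    · simp only [if_pos hb]
      exact htru _ hb _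
    · simp only [if_neg hb]
      exact le_rfl
  -- the losses
  let s : C → (Fin N → Fin q) → ℝ := fun c b => if b ∈ A ∧ c ∈ F b then 1 else 0
  have hs : ∀ c b, 0 ≤ s c b ∧ s c b ≤ 1 := by
    intro c b
    simp only [s]
    split_ifs <;> norm_num
  have hsA : ∀ c b, s c b ≤ if b ∈ A then 1 else 0 := by
    intro c b
    simp only [s]
    by_cases hb : b ∈ A
    · by_cases hc : c ∈ F b
      · rw [if_pos ⟨hb, hc⟩, if_pos hb]
      · rw [if_neg (fun h => hc h.2), if_pos hb]; norm_num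
    · rw [if_neg (fun h => hb h.1), if_neg hb]
  let g1 : C → (Fin N → Fin q → Θ) → ℝ := fun c t => if sat c t then - ls c t else 0
  let g2 : C → (Fin N → Fin q → Θ) → ℝ := fun c t => if sat c t then 0 else (1 + ls c t) / 2
  let g3 : C → (Fin N → Fin q → Θ) → ℝ := fun c t => if sat c t then 0 else (1 - ls c t) / 2
  have hg1 : ∀ c t, 0 ≤ g1 c t ∧ g1 c t ≤ 1 := by
    intro c t
    have h1 := abs_le.mp (hls c t)
    simp only [g1]
    split_ifs with hh
    · have := hlsat c t hh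
      constructor <;> linarith
    · constructor <;> norm_num
  have hg2 : ∀ c t, 0 ≤ g2 c t ∧ g2 c t ≤ 1 := by
    intro c t
    have h1 := abs_le.mp (hls c t)
    simp only [g2]
    split_ifs with hh
    · constructor <;> norm_num
    · constructor <;> linarith
  have hg3 : ∀ c t, 0 ≤ g3 c t ∧ g3 c t ≤ 1 := by
    intro c t
    have h1 := abs_le.mp (hls c t)
    simp only [g3]
    split_ifs with hh
    · constructor <;> norm_num
    · constructor <;> linarith
  have hg123 : ∀ c t, g1 c t + g2 c t + g3 c t ≤ 1 := by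
    intro c t
    have h1 := abs_le.mp (hls c t)
    simp only [g1, g2, g3]
    split_ifs with hh
    · linarith
    · linarith
  have hloss : ∀ c, av (fun ab : (Fin N → Fin q → Θ) × (Fin N → Fin q) =>
      D (fun i => ab.1 i (ab.2 i)) * (s c ab.2 * ls c ab.1)) ≤
      M * (τ * μ + 3 * (X / τ + X)) := by
    intro c
    obtain ⟨hPp, hPm⟩ := hPV c
    have k1 := sdp1 hSDP hTRP p σ hp1 hp2 hσ hΘ N q h hq D M (2 * m) R τ (by linarith) hDM hPD
      (by linarith) hR1 hτ0 (g1 c) (s c) (hg1 c) (hs c)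
    have k2 := sdp1 hSDP hTRP p σ hp1 hp2 hσ hΘ N q h hq (fun z => if V c z then - D z else 0) M
      (2 * m) R τ (by linarith) (by
        intro z
        show |if V c z then - D z else 0| ≤ M
        split_ifs
        · rw [abs_neg]; exact hDM z
        · rw [abs_zero]; linarith) hPm
      (by linarith) hR1 hτ0 (g2 c) (s c) (hg2 c) (hs c)
    have k3 := sdp1 hSDP hTRP p σ hp1 hp2 hσ hΘ N q h hq (fun z => if V c z then D z else 0) M
      (2 * m) R τ (by linarith) (by
        intro z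
        show |if V c z then D z else 0| ≤ M
        split_ifs
        · exact hDM z
        · rw [abs_zero]; linarith) hPp
      (by linarith) hR1 hτ0 (g3 c) (s c) (hg3 c) (hs c)
    rw [← hXd] at k1 k2 k3
    have hpt : (fun ab : (Fin N → Fin q → Θ) × (Fin N → Fin q) =>
        D (fun i => ab.1 i (ab.2 i)) * (s c ab.2 * ls c ab.1)) =
        fun ab => - (D (fun i => ab.1 i (ab.2 i)) * (g1 c ab.1 * s c ab.2) +
          (if V c (fun i => ab.1 i (ab.2 i)) then - D (fun i => ab.1 i (ab.2 i)) else 0) *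
            (g2 c ab.1 * s c ab.2) +
          (if V c (fun i => ab.1 i (ab.2 i)) then D (fun i => ab.1 i (ab.2 i)) else 0) *
            (g3 c ab.1 * s c ab.2)) := by
      funext ab
      by_cases hh : sat c ab.1
      · simp only [g1, g2, g3, if_pos hh]
        ring
      · simp only [g1, g2, g3, if_neg hh]
        by_cases hb : ab.2 ∈ A ∧ c ∈ F ab.2
        · have hV := hsat ab.2 c hb.2 ab.1 hh
          rw [if_pos hV, if_pos hV]
          ring
        · have h0 : s c ab.2 = 0 := by simp only [s]; rw [if_neg hb]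
          rw [h0]
          ring
    rw [hpt, av_neg, H76.PS.av_add, H76.PS.av_add]
    have hYs : av (fun ab : (Fin N → Fin q → Θ) × (Fin N → Fin q) => g1 c ab.1 * s c ab.2) +
        av (fun ab : (Fin N → Fin q → Θ) × (Fin N → Fin q) => g2 c ab.1 * s c ab.2) +
        av (fun ab : (Fin N → Fin q → Θ) × (Fin N → Fin q) => g3 c ab.1 * s c ab.2) ≤ μ := by
      rw [← H76.PS.av_add, ← H76.PS.av_add]
      have h1 : μ = μ * 1 := by ring
      rw [h1, ← hav1 1]
      apply H76.PS.av_mono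
      intro ab
      have h2 := hg123 c ab.1
      have h3 := hsA c ab.2
      have h4 := (hs c ab.2).1
      calc g1 c ab.1 * s c ab.2 + g2 c ab.1 * s c ab.2 + g3 c ab.1 * s c ab.2
          = (g1 c ab.1 + g2 c ab.1 + g3 c ab.1) * s c ab.2 := by ring
        _ ≤ 1 * s c ab.2 := mul_le_mul_of_nonneg_right h2 h4
        _ ≤ _ := by rw [one_mul]; exact h3
    have hM0 : 0 ≤ M * τ := by positivity
    have h5 := mul_le_mul_of_nonneg_left hYs hM0
    nlinarith
  have hLs : ∑ c, av (fun ab : (Fin N → Fin q → Θ) × (Fin N → Fin q) =>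
      D (fun i => ab.1 i (ab.2 i)) * (s c ab.2 * ls c ab.1)) ≤
      cC * (M * (τ * μ + 3 * (X / τ + X))) := by
    calc _ ≤ ∑ c : C, M * (τ * μ + 3 * (X / τ + X)) := Finset.sum_le_sum fun c _ => hloss c
      _ = _ := by rw [Finset.sum_const, Finset.card_univ, nsmul_eq_mul, ← hcC]
  -- the pointwise identity
  have hpt : ∀ ab : (Fin N → Fin q → Θ) × (Fin N → Fin q),
      D (fun i => ab.1 i (ab.2 i)) * (P' ab.1 * L2 ab.2).trace ≤
      ((∑ c, D (fun i => ab.1 i (ab.2 i)) * (s c ab.2 * ls c ab.1)) -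
        δ * (if ab.2 ∈ A then D (fun i => ab.1 i (ab.2 i)) else 0)) +
        (if ab.2 ∈ A then M * η else 0) := by
    intro ab
    rw [htr]
    by_cases hb : ab.2 ∈ A
    · simp only [if_pos hb]
      have h1 : ∑ c, D (fun i => ab.1 i (ab.2 i)) * (s c ab.2 * ls c ab.1) =
          D (fun i => ab.1 i (ab.2 i)) * ∑ c ∈ F ab.2, ls c ab.1 := by
        rw [← Finset.mul_sum]
        congr 1
        rw [← Finset.sum_filter_add_sum_filter_not univ (fun c => c ∈ F ab.2)]
        have h2 : ∑ c ∈ univ.filter (fun c => ¬ c ∈ F ab.2), s c ab.2 * ls c ab.1 = 0 := by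
          refine Finset.sum_eq_zero fun c hc => ?_
          have : s c ab.2 = 0 := by
            simp only [s]
            rw [if_neg (fun h => (Finset.mem_filter.1 hc).2 h.2)]
          rw [this, zero_mul]
        rw [h2, add_zero]
        have h3 : univ.filter (fun c => c ∈ F ab.2) = F ab.2 := by ext c; simp
        rw [h3]
        refine Finset.sum_congr rfl fun c hc => ?_
        have : s c ab.2 = 1 := by
          simp only [s]
          rw [if_pos ⟨hb, hc⟩]
        rw [this, one_mul]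
      rw [h1]
      have h4 := hmain ab.2 hb ab.1
      have h5 := hDM (fun i => ab.1 i (ab.2 i))
      have h6 : |D (fun i => ab.1 i (ab.2 i)) *
          (∑ c ∈ F ab.2, ls c ab.1 - δ - (L ab.2 * S ab.1).trace)| ≤ M * η := by
        rw [abs_mul]
        exact mul_le_mul h5 h4 (abs_nonneg _) (by linarith)
      have h7 := (abs_le.mp h6).1
      nlinarith
    · simp only [if_neg hb]
      have h1 : ∑ c, D (fun i => ab.1 i (ab.2 i)) * (s c ab.2 * ls c ab.1) = 0 := by
        refine Finset.sum_eq_zero fun c _ => ?_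
        have : s c ab.2 = 0 := by
          simp only [s]
          rw [if_neg (fun h => hb h.1)]
        rw [this]
        ring
      rw [h1]
      simp
  have hR2 : av (fun ab : (Fin N → Fin q → Θ) × (Fin N → Fin q) =>
        D (fun i => ab.1 i (ab.2 i)) * (P' ab.1 * L2 ab.2).trace) ≤
      (∑ c, av (fun ab : (Fin N → Fin q → Θ) × (Fin N → Fin q) =>
        D (fun i => ab.1 i (ab.2 i)) * (s c ab.2 * ls c ab.1))) - δ * μ + M * η * μ := by
    refine (H76.PS.av_mono _ _ hpt).trans ?_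
    rw [H76.PS.av_add, H76.PS.av_sub, H76.PS.av_smul, havD, hav1, av_sumc]
    apply le_of_eq
    ring
  have hk := key.trans hR2
  rw [hτ] at hk hLs
  exact fin3 δ μ M m cC X η _ _ hδ hcC0 hm hM hδm hXn hμ hη hYY hk hLs

end Pool.Agent.H41.QE
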